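import Pool.Agent.W633.LT.Stm

/-!
# Project LG: additivity of the invariants `e` and `deg`
-/

set_option autoImplicit false

namespace Pool.Agent.W762.LG

open W633.LT

section quot

variable {k : Type} [Field k] {V' V V'' : Type} [AddCommGroup V'] [AddCommGroup V]
  [AddCommGroup V''] [Module k V'] [Module k V] [Module k V'']

theorem quot_exact (f : V' →ₗ[k] V) (g : V →ₗ[k] V'')
    (hfg : Function.Exact f g) (hg : Function.Surjective g) (S' : Submodule k V')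
    (S : Submodule k V) (S'' : Submodule k V'') (h1 : S' ≤ S.comap f) (h2 : S ≤ S''.comap g)
    (h3 : ∀ x ∈ S'', ∃ y ∈ S, g y = x) (h4 : ∀ x, f x ∈ S → x ∈ S') :
    Function.Injective (S'.mapQ S f h1) ∧ Function.Exact (S'.mapQ S f h1) (S.mapQ S'' g h2) ∧
      Function.Surjective (S.mapQ S'' g h2) := by
  refine ⟨?_, ?_, ?_⟩
  · rw [injective_iff_map_eq_zero]
    intro x hx
    obtain ⟨x, rfl⟩ := Submodule.Quotient.mk_surjective S' x
    rw [Submodule.mapQ_apply, Submodule.Quotient.mk_eq_zero] at hx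
    rw [Submodule.Quotient.mk_eq_zero]
    exact h4 x hx
  · intro x
    obtain ⟨x, rfl⟩ := Submodule.Quotient.mk_surjective S x
    constructor
    · intro hx
      rw [Submodule.mapQ_apply, Submodule.Quotient.mk_eq_zero] at hx
      obtain ⟨y, hy, hyx⟩ := h3 _ hx
      have h5 : g (x - y) = 0 := by rw [map_sub, hyx, sub_self]
      obtain ⟨z, hz⟩ := (hfg _).1 h5
      refine ⟨Submodule.Quotient.mk z, ?_⟩
      rw [Submodule.mapQ_apply, hz, Submodule.Quotient.eq]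
      have h6 : x - y - x = -y := by abel
      rw [h6]
      exact S.neg_mem hy
    · rintro ⟨z, hz⟩
      obtain ⟨z, rfl⟩ := Submodule.Quotient.mk_surjective S' z
      rw [← hz, Submodule.mapQ_apply, Submodule.mapQ_apply, (hfg _).2 ⟨z, rfl⟩,
        Submodule.Quotient.mk_zero]
  · intro x
    obtain ⟨x, rfl⟩ := Submodule.Quotient.mk_surjective S'' x
    obtain ⟨y, rfl⟩ := hg x
    exact ⟨Submodule.Quotient.mk y, rfl⟩

end quot

/-- additivity for two-term complexes `A × B → C` -/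
theorem dAdd (hI : IndAdd) {k : Type} [Field k] {A' A A'' B' B B'' C' C C'' : Type}
    [AddCommGroup A'] [AddCommGroup A] [AddCommGroup A''] [AddCommGroup B'] [AddCommGroup B]
    [AddCommGroup B''] [AddCommGroup C'] [AddCommGroup C] [AddCommGroup C'']
    [Module k A'] [Module k A] [Module k A''] [Module k B'] [Module k B] [Module k B'']
    [Module k C'] [Module k C] [Module k C'']
    (fA : A' →ₗ[k] A) (gA : A →ₗ[k] A'') (fB : B' →ₗ[k] B) (gB : B →ₗ[k] B'')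
    (fC : C' →ₗ[k] C) (gC : C →ₗ[k] C'')
    (hA : Function.Injective fA ∧ Function.Exact fA gA ∧ Function.Surjective gA)
    (hB : Function.Injective fB ∧ Function.Exact fB gB ∧ Function.Surjective gB)
    (hC : Function.Injective fC ∧ Function.Exact fC gC ∧ Function.Surjective gC)
    (a' : A' →ₗ[k] C') (a : A →ₗ[k] C) (a'' : A'' →ₗ[k] C'')
    (b' : B' →ₗ[k] C') (b : B →ₗ[k] C) (b'' : B'' →ₗ[k] C'')
    (h1 : ∀ x, fC (a' x) = a (fA x)) (h2 : ∀ x, gC (a x) = a'' (gA x))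
    (h3 : ∀ x, fC (b' x) = b (fB x)) (h4 : ∀ x, gC (b x) = b'' (gB x))
    (D' : A' × B' →ₗ[k] C') (D : A × B →ₗ[k] C) (D'' : A'' × B'' →ₗ[k] C'')
    (hD' : ∀ x, D' x = a' x.1 - b' x.2) (hD : ∀ x, D x = a x.1 - b x.2)
    (hD'' : ∀ x, D'' x = a'' x.1 - b'' x.2) (F' : Fred D') (F : Fred D) (F'' : Fred D'') :
    ind D = ind D' + ind D'' := by
  refine hI k _ _ _ _ _ _ (LinearMap.prodMap fA fB) (LinearMap.prodMap gA gB) fC gC D' D D''
    ?_ ?_ ?_ hC.1 hC.2.1 hC.2.2 ?_ ?_ F' F F''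
  · rintro ⟨x, y⟩ ⟨x', y'⟩ h
    rw [LinearMap.prodMap_apply, LinearMap.prodMap_apply] at h
    exact Prod.ext (hA.1 (Prod.mk.inj h).1) (hB.1 (Prod.mk.inj h).2)
  · rintro ⟨x, y⟩
    rw [LinearMap.prodMap_apply]
    constructor
    · intro h
      have h5 : gA x = 0 := (Prod.mk.inj h).1
      have h6 : gB y = 0 := (Prod.mk.inj h).2
      obtain ⟨u, hu⟩ := (hA.2.1 x).1 h5
      obtain ⟨v, hv⟩ := (hB.2.1 y).1 h6
      exact ⟨(u, v), by rw [LinearMap.prodMap_apply, hu, hv]⟩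
    · rintro ⟨⟨u, v⟩, h⟩
      rw [LinearMap.prodMap_apply] at h
      have h5 := (hA.2.1 x).2 ⟨u, (Prod.mk.inj h).1⟩
      have h6 := (hB.2.1 y).2 ⟨v, (Prod.mk.inj h).2⟩
      change (gA x, gB y) = 0
      rw [h5, h6]
      rfl
  · rintro ⟨x, y⟩
    obtain ⟨u, hu⟩ := hA.2.2 x
    obtain ⟨v, hv⟩ := hB.2.2 y
    exact ⟨(u, v), by rw [LinearMap.prodMap_apply, hu, hv]⟩
  · apply LinearMap.ext
    rintro ⟨x, y⟩
    rw [LinearMap.comp_apply, LinearMap.comp_apply, hD', hD, map_sub, h1, h3]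
    rfl
  · apply LinearMap.ext
    rintro ⟨x, y⟩
    rw [LinearMap.comp_apply, LinearMap.comp_apply, hD'', hD, map_sub, h2, h4]
    rfl

section fam

variable {k : Type} [Field k]

theorem act_inv (N : Fam k) (b : SignType) (n : ℤ) (v : N.V b 0) :
    N.act b 0 0 (-n) (N.act b 0 0 n v) = v := by
  rw [← N.act_add b 0 0 (-n) 0 n (by simp) (by simp) (by simp) (by simp)]
  simp only [add_zero, neg_add_cancel]
  exact N.act_zero b 0 v

theorem act_zero_of (N : Fam k) (b : SignType) (n : ℤ) (v : N.V b 0) (h : N.act b 0 0 n v = 0) :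
    v = 0 := by
  rw [← act_inv N b n v, h, map_zero]

theorem act_inj (N : Fam k) (hN : N.Good) (b c : SignType) (v : N.V b c)
    (h : N.act b c 0 (c : ℤ) v = 0) : v = 0 := by
  have h1 : N.res (Sub.refl b) (Sub.zero c) (N.act b c 0 (c : ℤ) v) = 0 := by rw [h, map_zero]
  rw [N.res_act _ _ 0 c (by simp) (Fam.sgn_nonneg c)] at h1
  have h2 := act_zero_of N b _ _ h1
  exact hN.inj (Sub.refl b) (Sub.zero c) (by rw [h2, map_zero])

theorem mem_sub {N : Fam k} {b : SignType} {p q : ℤ} {x : N.V b 0} :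
    x ∈ N.sub b p q ↔ ∃ (u : N.V b 1) (w : N.V b (-1)),
      x = N.act b 0 0 p (N.res (Sub.refl b) (Sub.zero 1) u) +
        N.act b 0 0 (-q) (N.res (Sub.refl b) (Sub.zero (-1)) w) := by
  unfold Fam.sub
  rw [Submodule.mem_sup]
  constructor
  · rintro ⟨_, ⟨_, ⟨u, rfl⟩, rfl⟩, _, ⟨_, ⟨w, rfl⟩, rfl⟩, rfl⟩
    exact ⟨u, w, rfl⟩
  · rintro ⟨u, w, rfl⟩
    exact ⟨_, ⟨_, ⟨u, rfl⟩, rfl⟩, _, ⟨_, ⟨w, rfl⟩, rfl⟩, rfl⟩

theorem deg_add (hI : IndAdd) (hF : FamFred) {N' N N'' : Fam k} (hN' : N'.Good) (hN : N.Good)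
    (hN'' : N''.Good) (hE : Fam.Exact N' N N'') (c : SignType) :
    N.deg c = N'.deg c + N''.deg c := by
  obtain ⟨f, g, hfa, hga, hfr, hgr, hex⟩ := hE
  have h1 : ∀ b, N'.subL b c ≤ (N.subL b c).comap (f b c) := by
    rintro b _ ⟨x, rfl⟩
    exact ⟨f b c x, (hfa b c 0 c x (by simp) (Fam.sgn_nonneg c)).symm⟩
  have h2 : ∀ b, N.subL b c ≤ (N''.subL b c).comap (g b c) := by
    rintro b _ ⟨x, rfl⟩
    exact ⟨g b c x, (hga b c 0 c x (by simp) (Fam.sgn_nonneg c)).symm⟩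
  have h3 : ∀ b, ∀ x ∈ N''.subL b c, ∃ y ∈ N.subL b c, g b c y = x := by
    rintro b _ ⟨x, rfl⟩
    obtain ⟨y, rfl⟩ := (hex b c).2.2 x
    exact ⟨_, ⟨y, rfl⟩, hga b c 0 c y (by simp) (Fam.sgn_nonneg c)⟩
  have h4 : ∀ b, ∀ x, f b c x ∈ N.subL b c → x ∈ N'.subL b c := by
    rintro b x ⟨y, hy⟩
    have h5 : N''.act b c 0 c (g b c y) = 0 := by
      rw [← hga b c 0 c y (by simp) (Fam.sgn_nonneg c), hy]
      exact ((hex b c).2.1 _).2 ⟨x, rfl⟩
    have h6 := act_inj N'' hN'' b c _ h5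
    obtain ⟨z, rfl⟩ := ((hex b c).2.1 _).1 h6
    refine ⟨z, ?_⟩
    apply (hex b c).1
    rw [hfa b c 0 c z (by simp) (Fam.sgn_nonneg c)]
    exact hy
  have hq := fun b => quot_exact (f b c) (g b c) (hex b c).2.1 (hex b c).2.2 (N'.subL b c)
    (N.subL b c) (N''.subL b c) (h1 b) (h2 b) (h3 b) (h4 b)
  refine dAdd hI _ _ _ _ _ _ (hq 1) (hq (-1)) (hq 0) (N'.resL 1 c) (N.resL 1 c) (N''.resL 1 c)
    (N'.sL c ∘ₗ N'.resL (-1) c) (N.sL c ∘ₗ N.resL (-1) c) (N''.sL c ∘ₗ N''.resL (-1) c)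
    ?_ ?_ ?_ ?_ (N'.DL c) (N.DL c) (N''.DL c) (fun _ => rfl) (fun _ => rfl) (fun _ => rfl)
    ((hF k N' hN').2 c) ((hF k N hN).2 c) ((hF k N'' hN'').2 c)
  · intro x
    obtain ⟨x, rfl⟩ := Submodule.Quotient.mk_surjective _ x
    exact congrArg Submodule.Quotient.mk (hfr (Sub.zero 1) (Sub.refl c) x)
  · intro x
    obtain ⟨x, rfl⟩ := Submodule.Quotient.mk_surjective _ x
    exact congrArg Submodule.Quotient.mk (hgr (Sub.zero 1) (Sub.refl c) x)
  · intro x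
    obtain ⟨x, rfl⟩ := Submodule.Quotient.mk_surjective _ x
    refine congrArg Submodule.Quotient.mk ((hfa 0 c (-1) 0 _ (by simp) (by simp)).trans ?_)
    rw [hfr (Sub.zero (-1)) (Sub.refl c) x]
  · intro x
    obtain ⟨x, rfl⟩ := Submodule.Quotient.mk_surjective _ x
    refine congrArg Submodule.Quotient.mk ((hga 0 c (-1) 0 _ (by simp) (by simp)).trans ?_)
    rw [hgr (Sub.zero (-1)) (Sub.refl c) x]

theorem indH_add (hI : IndAdd) (hF : FamFred) {N' N N'' : Fam k} (hN' : N'.Good) (hN : N.Good)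
    (hN'' : N''.Good) (hE : Fam.Exact N' N N'') (q : ℤ)
    (hsep : ∀ (b : SignType) (x : N''.V b 1) (y : N''.V b (-1)),
      N''.res (Sub.refl b) (Sub.zero 1) x =
        N''.act b 0 0 (-q) (N''.res (Sub.refl b) (Sub.zero (-1)) y) → x = 0) :
    ind (N.DH 0 q) = ind (N'.DH 0 q) + ind (N''.DH 0 q) := by
  obtain ⟨f, g, hfa, hga, hfr, hgr, hex⟩ := hE
  have h1 : ∀ b, N'.sub b 0 q ≤ (N.sub b 0 q).comap (f b 0) := by
    intro b x hx
    obtain ⟨u, w, rfl⟩ := mem_sub.1 hx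
    rw [Submodule.mem_comap, mem_sub]
    refine ⟨f b 1 u, f b (-1) w, ?_⟩
    rw [map_add, hfa b 0 0 0 _ (by simp) (by simp), hfa b 0 0 (-q) _ (by simp) (by simp),
      hfr, hfr]
  have h2 : ∀ b, N.sub b 0 q ≤ (N''.sub b 0 q).comap (g b 0) := by
    intro b x hx
    obtain ⟨u, w, rfl⟩ := mem_sub.1 hx
    rw [Submodule.mem_comap, mem_sub]
    refine ⟨g b 1 u, g b (-1) w, ?_⟩
    rw [map_add, hga b 0 0 0 _ (by simp) (by simp), hga b 0 0 (-q) _ (by simp) (by simp),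
      hgr, hgr]
  have h3 : ∀ b, ∀ x ∈ N''.sub b 0 q, ∃ y ∈ N.sub b 0 q, g b 0 y = x := by
    intro b x hx
    obtain ⟨u, w, rfl⟩ := mem_sub.1 hx
    obtain ⟨u, rfl⟩ := (hex b 1).2.2 u
    obtain ⟨w, rfl⟩ := (hex b (-1)).2.2 w
    refine ⟨_, mem_sub.2 ⟨u, w, rfl⟩, ?_⟩
    rw [map_add, hga b 0 0 0 _ (by simp) (by simp), hga b 0 0 (-q) _ (by simp) (by simp),
      hgr, hgr]
  have h4 : ∀ b, ∀ x, f b 0 x ∈ N.sub b 0 q → x ∈ N'.sub b 0 q := by
    intro b x hx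
    obtain ⟨u, w, hx⟩ := mem_sub.1 hx
    have h5 : N''.act b 0 0 0 (N''.res (Sub.refl b) (Sub.zero 1) (g b 1 u)) +
        N''.act b 0 0 (-q) (N''.res (Sub.refl b) (Sub.zero (-1)) (g b (-1) w)) = 0 := by
      rw [← hgr, ← hgr, ← hga b 0 0 0 _ (by simp) (by simp),
        ← hga b 0 0 (-q) _ (by simp) (by simp), ← map_add, ← hx]
      exact ((hex b 0).2.1 _).2 ⟨x, rfl⟩
    rw [N''.act_zero] at h5
    have hu : g b 1 u = 0 := by
      refine hsep b _ (-(g b (-1) w)) ?_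
      rw [map_neg, map_neg]
      exact eq_neg_of_add_eq_zero_left h5
    rw [hu, map_zero, zero_add] at h5
    have h6 := act_zero_of N'' b _ _ h5
    have hw : g b (-1) w = 0 := hN''.inj (Sub.refl b) (Sub.zero (-1)) (by rw [h6, map_zero])
    obtain ⟨u, rfl⟩ := ((hex b 1).2.1 _).1 hu
    obtain ⟨w, rfl⟩ := ((hex b (-1)).2.1 _).1 hw
    rw [mem_sub]
    refine ⟨u, w, ?_⟩
    apply (hex b 0).1
    rw [map_add, hfa b 0 0 0 _ (by simp) (by simp), hfa b 0 0 (-q) _ (by simp) (by simp),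
      hfr, hfr]
    exact hx
  have hq := fun b => quot_exact (f b 0) (g b 0) (hex b 0).2.1 (hex b 0).2.2 (N'.sub b 0 q)
    (N.sub b 0 q) (N''.sub b 0 q) (h1 b) (h2 b) (h3 b) (h4 b)
  refine dAdd hI _ _ _ _ _ _ (hq 1) (hq (-1)) (hq 0) (N'.resH 1 0 q) (N.resH 1 0 q)
    (N''.resH 1 0 q) (N'.sH 0 q ∘ₗ N'.resH (-1) 0 q) (N.sH 0 q ∘ₗ N.resH (-1) 0 q)
    (N''.sH 0 q ∘ₗ N''.resH (-1) 0 q)
    ?_ ?_ ?_ ?_ (N'.DH 0 q) (N.DH 0 q) (N''.DH 0 q) (fun _ => rfl) (fun _ => rfl) (fun _ => rfl)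
    ((hF k N' hN').1 0 q) ((hF k N hN).1 0 q) ((hF k N'' hN'').1 0 q)
  · intro x
    obtain ⟨x, rfl⟩ := Submodule.Quotient.mk_surjective _ x
    exact congrArg Submodule.Quotient.mk (hfr (Sub.zero 1) (Sub.refl 0) x)
  · intro x
    obtain ⟨x, rfl⟩ := Submodule.Quotient.mk_surjective _ x
    exact congrArg Submodule.Quotient.mk (hgr (Sub.zero 1) (Sub.refl 0) x)
  · intro x
    obtain ⟨x, rfl⟩ := Submodule.Quotient.mk_surjective _ x
    refine congrArg Submodule.Quotient.mk ((hfa 0 0 (-1) 0 _ (by simp) (by simp)).trans ?_)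
    rw [hfr (Sub.zero (-1)) (Sub.refl 0) x]
  · intro x
    obtain ⟨x, rfl⟩ := Submodule.Quotient.mk_surjective _ x
    refine congrArg Submodule.Quotient.mk ((hga 0 0 (-1) 0 _ (by simp) (by simp)).trans ?_)
    rw [hgr (Sub.zero (-1)) (Sub.refl 0) x]

end fam

theorem famAdd (h1 : IndAdd) (h2 : FamFred) (h3 : FamStab) : FamAdd := by
  intro k _ N' N N'' hN' hN hN'' hE
  have hdeg := fun c => deg_add h1 h2 hN' hN hN'' hE c
  refine ⟨?_, hdeg⟩
  obtain ⟨q', hq'⟩ := (h3 k N' hN').1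
  obtain ⟨q, hq⟩ := (h3 k N hN).1
  obtain ⟨q'', hq''⟩ := (h3 k N'' hN'').1
  obtain ⟨q0, hq0⟩ := hN''.sep
  set Q := max (max q' q) (max q'' q0) with hQ
  have e1 := hq' Q (by omega)
  have e2 := hq Q (by omega)
  have e3 := hq'' Q (by omega)
  have e4 := indH_add h1 h2 hN' hN hN'' hE Q (fun b x y h => hq0 Q (by omega) b x y h)
  rw [← e1, ← e2, ← e3]
  unfold Fam.E
  rw [e4, hdeg 1]
  ring

end Pool.Agent.W762.LG
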