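import Pool.Agent.W290.LG.Stm2

/-!
# LG-M: meaning of the explicit system `sysL`
-/

set_option autoImplicit false

namespace Pool.Agent.W762.LG.M

open Pool.Agent Pool.Agent.NPC Pool.Agent.H881R2.Mat Pool.Agent.W290.LG

/-! ### numbering -/

theorem md (u a N : ℕ) (h : a < N) : (u * N + a) % N = a := by
  rw [mul_comm, Nat.mul_add_mod]
  exact Nat.mod_eq_of_lt h

theorem dv (u a N : ℕ) (h : a < N) : (u * N + a) / N = u := by
  rw [mul_comm, Nat.mul_add_div (by omega), Nat.div_eq_of_lt h, add_zero]

/-- the intended values -/
noncomputable def vv (L : List (List ℕ)) (c : ℕ → ℕ → ℕ → ℚ) (a₀ a₁ a₂ a₃ a₄ a₅ : ℕ) : ℚ :=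
  if a₀ = 0 then c a₁ a₂ a₃
  else if a₀ = 1 then c a₁ a₃ ((L.getD a₁ []).getD a₅ 0) * c a₂ ((L.getD a₁ []).getD a₅ 0) a₄
  else if a₀ = 2 then (((L.getD a₁ []).take a₅).map (fun k => c a₁ a₃ k * c a₂ k a₄)).sum
  else if a₀ = 3 then (c a₁ a₂ a₃)⁻¹
  else if a₀ = 4 then 0
  else 1

/-- the assignment -/
noncomputable def va (L : List (List ℕ)) (c : ℕ → ℕ → ℕ → ℚ) (x : ℕ) : ℚ :=
  vv L c (x / rad L / rad L / rad L / rad L / rad L)
    (x / rad L / rad L / rad L / rad L % rad L) (x / rad L / rad L / rad L % rad L)
    (x / rad L / rad L % rad L) (x / rad L % rad L) (x % rad L)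

theorem va_ix (L : List (List ℕ)) (c : ℕ → ℕ → ℕ → ℚ) (a₀ a₁ a₂ a₃ a₄ a₅ : ℕ)
    (h1 : a₁ < rad L) (h2 : a₂ < rad L) (h3 : a₃ < rad L) (h4 : a₄ < rad L) (h5 : a₅ < rad L) :
    va L c (ix (rad L) a₀ a₁ a₂ a₃ a₄ a₅) = vv L c a₀ a₁ a₂ a₃ a₄ a₅ := by
  unfold va ix
  rw [md _ _ _ h5, dv _ _ _ h5, md _ _ _ h4, dv _ _ _ h4, md _ _ _ h3, dv _ _ _ h3,
    md _ _ _ h2, dv _ _ _ h2, md _ _ _ h1, dv _ _ _ h1]

/-! ### bounds -/

theorem b_lt {L : List (List ℕ)} {b : ℕ} {l : List ℕ} (h : L[b]? = some l) : b < rad L := by
  have := (List.getElem?_eq_some_iff.1 h).1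
  unfold rad
  omega

theorem j_lt {L : List (List ℕ)} {j : ℕ} (h : j ∈ L.flatten) : j < rad L := by
  have := List.le_sum_of_mem h
  unfold rad
  omega

theorem t_lt {L : List (List ℕ)} {b : ℕ} {l : List ℕ} (h : L[b]? = some l) {t : ℕ}
    (ht : t ≤ l.length) : t < rad L := by
  have h1 : l ∈ L := List.mem_of_getElem? h
  have h2 : l.length ≤ L.flatten.length := by
    rw [List.length_flatten]
    exact List.le_sum_of_mem (List.mem_map_of_mem h1)
  unfold rad
  omega

theorem z_lt (L : List (List ℕ)) : 0 < rad L := by
  unfold rad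
  omega

theorem fl {L : List (List ℕ)} {b : ℕ} {l : List ℕ} (h : L[b]? = some l) {k : ℕ} (hk : k ∈ l) :
    k ∈ L.flatten := List.mem_flatten.2 ⟨l, List.mem_of_getElem? h, hk⟩

/-! ### partial sums -/

theorem psum_eq (l : List ℕ) (f : ℕ → ℚ) (S : ℕ → ℚ) (h0 : S 0 = 0)
    (h : ∀ t k, l[t]? = some k → S t + f k = S (t + 1)) :
    ∀ t, t ≤ l.length → S t = ((l.take t).map f).sum := by
  intro t
  induction t with
  | zero => intro _; simpa using h0
  | succ t ih =>
    intro ht
    have h1 : l[t]? = some l[t] := List.getElem?_eq_getElem (by omega)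
    rw [← h t _ h1, ih (by omega), List.take_add_one, h1]
    simp only [Option.toList_some, List.map_append, List.map_cons, List.map_nil, List.sum_append,
      List.sum_cons, List.sum_nil, add_zero]

theorem zero_of_add {x : ℚ} (h : x + x = x) : x = 0 := by linarith

theorem t_M : S_M := by
  intro L
  constructor
  · rintro ⟨v, hv⟩
    have hZ : v (vZ (rad L)) = 0 := by
      have := hv (ER.Con.add (vZ (rad L)) (vZ (rad L)) (vZ (rad L))) (by simp [sysL])
      exact zero_of_add this
    have hO : v (vO (rad L)) = 1 := hv (ER.Con.one (vO (rad L))) (by simp [sysL])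
    have hE : ∀ (b : ℕ) (l : List ℕ), L[b]? = some l → ∀ j ∈ L.flatten, ∀ k ∈ L.flatten,
        ∀ e ∈ cEl L l b j k, HoldsK v e := by
      intro b l hb j hj k hk e he
      refine hv e ?_
      unfold sysL
      refine List.mem_append_right _ (List.mem_append_left _ ?_)
      refine List.mem_flatMap.2 ⟨(l, b), List.mk_mem_zipIdx_iff_getElem?.2 hb, ?_⟩
      refine List.mem_flatMap.2 ⟨j, hj, List.mem_flatMap.2 ⟨k, hk, he⟩⟩
    have hT : ∀ (b : ℕ) (l : List ℕ), L[b]? = some l → ∀ (b' : ℕ) (l' : List ℕ), L[b']? = some l' →
        ∀ j ∈ L.flatten, ∀ m ∈ L.flatten, ∀ e ∈ cTr L l b b' j m, HoldsK v e := by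
      intro b l hb b' l' hb' j hj m hm e he
      refine hv e ?_
      unfold sysL
      refine List.mem_append_right _ (List.mem_append_right _ ?_)
      refine List.mem_flatMap.2 ⟨(l, b), List.mk_mem_zipIdx_iff_getElem?.2 hb, ?_⟩
      refine List.mem_flatMap.2 ⟨(l', b'), List.mk_mem_zipIdx_iff_getElem?.2 hb', ?_⟩
      refine List.mem_flatMap.2 ⟨j, hj, List.mem_flatMap.2 ⟨m, hm, he⟩⟩
    refine ⟨fun b j k => v (vC (rad L) b j k), ?_, ?_, ?_, ?_⟩
    · intro b l hb j hj k hk hkl
      have := hE b l hb j hj k hk
      unfold cEl at this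
      rw [if_neg hkl] at this
      exact zero_of_add (this _ (List.mem_singleton.2 rfl))
    · intro b l hb j hj k hk
      have := hE b l hb j (fl hb hj) k (fl hb hk)
      unfold cEl at this
      rw [if_pos hk, if_pos hj] at this
      by_cases hjk : j = k
      · rw [if_pos hjk] at this ⊢
        exact this _ (List.mem_singleton.2 rfl)
      · rw [if_neg hjk] at this ⊢
        exact zero_of_add (this _ (List.mem_singleton.2 rfl))
    · intro b l hb b' l' hb' j hj m hm
      have h1 := hT b l hb b' l' hb' j hj m hm
      have h0 : v (vS (rad L) b b' j m 0) = 0 := by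
        have := h1 (ER.Con.add (vS (rad L) b b' j m 0) (vS (rad L) b b' j m 0)
          (vS (rad L) b b' j m 0)) (by simp [cTr])
        exact zero_of_add this
      have h2 : v (vS (rad L) b b' j m l.length) = v (vC (rad L) b' j m) := by
        have := h1 (ER.Con.add (vS (rad L) b b' j m l.length) (vZ (rad L)) (vC (rad L) b' j m))
          (by simp [cTr])
        have h3 : v (vS (rad L) b b' j m l.length) + v (vZ (rad L)) = v (vC (rad L) b' j m) := this
        rw [hZ, add_zero] at h3
        exact h3
      have h3 : ∀ t k, l[t]? = some k → v (vS (rad L) b b' j m t) +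
          v (vC (rad L) b j k) * v (vC (rad L) b' k m) = v (vS (rad L) b b' j m (t + 1)) := by
        intro t k htk
        have hq : (k, t) ∈ l.zipIdx := List.mk_mem_zipIdx_iff_getElem?.2 htk
        have h4 : v (vC (rad L) b j k) * v (vC (rad L) b' k m) = v (vP (rad L) b b' j m t) :=
          h1 (ER.Con.mul (vC (rad L) b j k) (vC (rad L) b' k m) (vP (rad L) b b' j m t)) (by
            unfold cTr
            refine List.mem_append_right _ (List.mem_flatMap.2 ⟨(k, t), hq, ?_⟩)
            simp)
        have h5 : v (vS (rad L) b b' j m t) + v (vP (rad L) b b' j m t) =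
            v (vS (rad L) b b' j m (t + 1)) :=
          h1 (ER.Con.add (vS (rad L) b b' j m t) (vP (rad L) b b' j m t)
            (vS (rad L) b b' j m (t + 1))) (by
            unfold cTr
            refine List.mem_append_right _ (List.mem_flatMap.2 ⟨(k, t), hq, ?_⟩)
            simp)
        rw [h4, h5]
      have h6 := psum_eq l (fun k => v (vC (rad L) b j k) * v (vC (rad L) b' k m))
        (fun t => v (vS (rad L) b b' j m t)) h0 h3 l.length le_rfl
      rw [List.take_length] at h6
      rw [← h2, ← h6]
    · intro b l hb j hj hjl k hk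
      have := hE b l hb j hj k (fl hb hk)
      unfold cEl at this
      rw [if_pos hk, if_neg hjl] at this
      by_cases hex : exch L l j k = true
      · rw [if_pos hex] at this
        have h1 : v (vC (rad L) b j k) * v (vY (rad L) b j k) = v (vO (rad L)) :=
          this _ (List.mem_singleton.2 rfl)
        rw [hO] at h1
        simp only [hex, iff_true]
        intro h2
        rw [h2, zero_mul] at h1
        exact zero_ne_one h1
      · rw [if_neg hex] at this
        have h1 : v (vC (rad L) b j k) = 0 := zero_of_add (this _ (List.mem_singleton.2 rfl))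
        simp only [h1, hex]
        simp
  · rintro ⟨c, hc⟩
    refine ⟨va L c, ?_⟩
    have z := z_lt L
    have hZ : va L c (vZ (rad L)) = 0 := by
      unfold vZ
      rw [va_ix L c _ _ _ _ _ _ z z z z z]
      simp [vv]
    have hO : va L c (vO (rad L)) = 1 := by
      unfold vO
      rw [va_ix L c _ _ _ _ _ _ z z z z z]
      simp [vv]
    have hC : ∀ b j k, b < rad L → j < rad L → k < rad L → va L c (vC (rad L) b j k) = c b j k := by
      intro b j k hb hj hk
      unfold vC
      rw [va_ix L c _ _ _ _ _ _ hb hj hk z z]
      simp [vv]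
    have hY : ∀ b j k, b < rad L → j < rad L → k < rad L →
        va L c (vY (rad L) b j k) = (c b j k)⁻¹ := by
      intro b j k hb hj hk
      unfold vY
      rw [va_ix L c _ _ _ _ _ _ hb hj hk z z]
      simp [vv]
    have hP : ∀ b l b' j m t k, L[b]? = some l → l[t]? = some k → b < rad L → b' < rad L →
        j < rad L → m < rad L → t < rad L →
        va L c (vP (rad L) b b' j m t) = c b j k * c b' k m := by
      intro b l b' j m t k hbl htk hb hb' hj hm ht
      unfold vP
      rw [va_ix L c _ _ _ _ _ _ hb hb' hj hm ht]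
      have h1 : L.getD b [] = l := by
        rw [List.getD_eq_getElem?_getD, hbl]; rfl
      have h2 : l.getD t 0 = k := by
        rw [List.getD_eq_getElem?_getD, htk]; rfl
      simp [vv, h1, h2, -List.getD_eq_getElem?_getD]
    have hS : ∀ b l b' j m t, L[b]? = some l → b < rad L → b' < rad L →
        j < rad L → m < rad L → t < rad L →
        va L c (vS (rad L) b b' j m t) = ((l.take t).map (fun k => c b j k * c b' k m)).sum := by
      intro b l b' j m t hbl hb hb' hj hm ht
      unfold vS
      rw [va_ix L c _ _ _ _ _ _ hb hb' hj hm ht]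
      have h1 : L.getD b [] = l := by
        rw [List.getD_eq_getElem?_getD, hbl]; rfl
      simp [vv, h1, -List.getD_eq_getElem?_getD]
    intro e he
    unfold sysL at he
    rw [List.mem_append, List.mem_append] at he
    rcases he with he | he | he
    · simp only [List.mem_cons, List.not_mem_nil, or_false] at he
      rcases he with rfl | rfl
      · show va L c _ + va L c _ = va L c _
        rw [hZ, add_zero]
      · exact hO
    · obtain ⟨⟨l, b⟩, hp, he⟩ := List.mem_flatMap.1 he
      obtain ⟨j, hj, he⟩ := List.mem_flatMap.1 he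
      obtain ⟨k, hk, he⟩ := List.mem_flatMap.1 he
      have hb : L[b]? = some l := List.mk_mem_zipIdx_iff_getElem?.1 hp
      dsimp only at he
      have hbN := b_lt hb
      have hjN := j_lt hj
      have hkN := j_lt hk
      have hCv := hC b j k hbN hjN hkN
      have hYv := hY b j k hbN hjN hkN
      unfold cEl at he
      by_cases hkl : k ∈ l
      · rw [if_pos hkl] at he
        by_cases hjl : j ∈ l
        · rw [if_pos hjl] at he
          have h1 := hc.one b l hb j hjl k hkl
          by_cases hjk : j = k
          · rw [if_pos hjk] at he h1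
            rw [List.mem_singleton.1 he]
            show va L c _ = 1
            rw [hCv, h1]
          · rw [if_neg hjk] at he h1
            rw [List.mem_singleton.1 he]
            show va L c _ + va L c _ = va L c _
            rw [hCv, h1, add_zero]
        · rw [if_neg hjl] at he
          have h1 := hc.ex b l hb j hj hjl k hkl
          by_cases hex : exch L l j k = true
          · rw [if_pos hex] at he
            rw [List.mem_singleton.1 he]
            show va L c _ * va L c _ = va L c _
            rw [hCv, hYv, hO]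
            exact mul_inv_cancel₀ (h1.2 hex)
          · rw [if_neg hex] at he
            rw [List.mem_singleton.1 he]
            have h2 : c b j k = 0 := by
              by_contra h
              exact hex (h1.1 h)
            show va L c _ + va L c _ = va L c _
            rw [hCv, h2, add_zero]
      · rw [if_neg hkl] at he
        rw [List.mem_singleton.1 he]
        have h2 : c b j k = 0 := hc.zero b l hb j hj k hk hkl
        show va L c _ + va L c _ = va L c _
        rw [hCv, h2, add_zero]
    · obtain ⟨⟨l, b⟩, hp, he⟩ := List.mem_flatMap.1 he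
      obtain ⟨⟨l', b'⟩, hp', he⟩ := List.mem_flatMap.1 he
      obtain ⟨j, hj, he⟩ := List.mem_flatMap.1 he
      obtain ⟨m, hm, he⟩ := List.mem_flatMap.1 he
      have hb : L[b]? = some l := List.mk_mem_zipIdx_iff_getElem?.1 hp
      have hb' : L[b']? = some l' := List.mk_mem_zipIdx_iff_getElem?.1 hp'
      dsimp only at he
      have hbN := b_lt hb
      have hbN' := b_lt hb'
      have hjN := j_lt hj
      have hmN := j_lt hm
      unfold cTr at he
      rw [List.mem_append] at he
      rcases he with he | he
      · simp only [List.mem_cons, List.not_mem_nil, or_false] at he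
        rcases he with rfl | rfl
        · show va L c _ + va L c _ = va L c _
          rw [hS b l b' j m 0 hb hbN hbN' hjN hmN z]
          simp
        · show va L c _ + va L c _ = va L c _
          rw [hS b l b' j m l.length hb hbN hbN' hjN hmN (t_lt hb le_rfl), hZ, add_zero,
            hC b' j m hbN' hjN hmN, List.take_length]
          exact hc.tr b l hb b' l' hb' j hj m hm
      · obtain ⟨⟨k, t⟩, hq, he⟩ := List.mem_flatMap.1 he
        have ht : l[t]? = some k := List.mk_mem_zipIdx_iff_getElem?.1 hq
        have htl : t < l.length := (List.getElem?_eq_some_iff.1 ht).1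
        have hkl : k ∈ l := List.mem_of_getElem? ht
        have hkN := j_lt (fl hb hkl)
        have htN : t < rad L := t_lt hb htl.le
        have htN' : t + 1 < rad L := t_lt hb htl
        dsimp only at he
        simp only [List.mem_cons, List.not_mem_nil, or_false] at he
        rcases he with rfl | rfl
        · show va L c _ * va L c _ = va L c _
          rw [hC b j k hbN hjN hkN, hC b' k m hbN' hkN hmN,
            hP b l b' j m t k hb ht hbN hbN' hjN hmN htN]
        · show va L c _ + va L c _ = va L c _
          rw [hS b l b' j m t hb hbN hbN' hjN hmN htN, hP b l b' j m t k hb ht hbN hbN' hjN hmN htN,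
            hS b l b' j m (t + 1) hb hbN hbN' hjN hmN htN', List.take_add_one, ht]
          simp

end Pool.Agent.W762.LG.M
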